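import Mathlib
import Pool.Agent.W753.VO.Final

/-!
Vanishing order of harmonic functions versus the measure of the nodal set on the sphere of radius
`1/2`: a negative answer in every dimension `n ≥ 3`.
-/

set_option autoImplicit false

open MeasureTheory
open scoped ENNReal

namespace Pool.Agent.Results.MP_a2f83a_an.SmallNodalSets

/-- `u` vanishes at the origin exactly to order `N`: all derivatives of order `< N` vanish at `0`
and the derivative of order `N` does not (so `u` is not identically zero). -/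
def VanishesToOrder {n : ℕ} (u : EuclideanSpace ℝ (Fin n) → ℝ) (N : ℕ) : Prop :=
  (∀ i < N, iteratedFDeriv ℝ i u 0 = 0) ∧ iteratedFDeriv ℝ N u 0 ≠ 0

/-- The nodal set on the sphere of radius `1/2`. -/
def Z {n : ℕ} (u : EuclideanSpace ℝ (Fin n) → ℝ) : Set (EuclideanSpace ℝ (Fin n)) :=
  {x | ‖x‖ = 1 / 2 ∧ u x = 0}

/-- For every `n ≥ 3`: for all `k` and `ε > 0` there is a function `u`, harmonic on the whole of
`ℝ^n`, with order of vanishing at `0` at least `k` and `H^{n-2}(Z(u)) < ε`; in particular for all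
`α > 0` and `C` the inequality `ord_0(u) ≤ C * H^{n-2}(Z(u))^α` fails for some harmonic `u`. -/
theorem result : ∀ n : ℕ, 3 ≤ n →
    (∀ (k : ℕ) (ε : ℝ), 0 < ε → ∃ (u : EuclideanSpace ℝ (Fin n) → ℝ) (N : ℕ), k ≤ N ∧
      InnerProductSpace.HarmonicOnNhd u Set.univ ∧ VanishesToOrder u N ∧
      Measure.hausdorffMeasure ((n : ℝ) - 2) (Z u) < ENNReal.ofReal ε) ∧
    (∀ α C : ℝ, 0 < α → ∃ (u : EuclideanSpace ℝ (Fin n) → ℝ) (N : ℕ),
      InnerProductSpace.HarmonicOnNhd u (Metric.ball 0 1) ∧ VanishesToOrder u N ∧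
      Measure.hausdorffMeasure ((n : ℝ) - 2) (Z u) < ⊤ ∧
      C * (Measure.hausdorffMeasure ((n : ℝ) - 2) (Z u)).toReal ^ α < (N : ℝ)) := by
  intro n hn
  obtain ⟨d, rfl⟩ : ∃ d, n = d + 2 := ⟨n - 2, by omega⟩
  have hd : 1 ≤ d := by omega
  have e : (((d + 2 : ℕ) : ℝ) - 2) = (d : ℝ) := by push_cast; ring
  rw [e]
  have key : ∀ (k : ℕ) (ε : ℝ), 0 < ε → ∃ (u : EuclideanSpace ℝ (Fin (d + 2)) → ℝ) (N : ℕ), k ≤ N ∧
      InnerProductSpace.HarmonicOnNhd u Set.univ ∧ VanishesToOrder u N ∧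
      Measure.hausdorffMeasure (d : ℝ) (Z u) < ENNReal.ofReal ε := by
    intro k ε hε
    obtain ⟨u, N, h1, h2, h3, h4, h5⟩ := Pool.Agent.W753.VO.main hd k ε hε
    exact ⟨u, N, h1.le, fun x _ => h2 x, ⟨h3, h4⟩, h5⟩
  refine ⟨key, ?_⟩
  intro α C hα
  -- choose `ε` with `|C| ε^α < 1`
  have hpos : (0 : ℝ) < |C| + 1 := by positivity
  obtain ⟨u, N, h1, h2, h3, h4⟩ := key 1 ((|C| + 1)⁻¹ ^ α⁻¹) (by positivity)
  have hlt : Measure.hausdorffMeasure (d : ℝ) (Z u) < ⊤ := h4.trans ENNReal.ofReal_lt_top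
  refine ⟨u, N, fun x _ => h2 x (Set.mem_univ x), h3, hlt, ?_⟩
  set H := (Measure.hausdorffMeasure (d : ℝ) (Z u)).toReal with hH
  have hH0 : 0 ≤ H := ENNReal.toReal_nonneg
  have hH1 : H ≤ (|C| + 1)⁻¹ ^ α⁻¹ := by
    rw [hH]
    exact ENNReal.toReal_le_of_le_ofReal (by positivity) h4.le
  have hH2 : H ^ α ≤ (|C| + 1)⁻¹ := by
    calc H ^ α ≤ ((|C| + 1)⁻¹ ^ α⁻¹) ^ α := Real.rpow_le_rpow hH0 hH1 hα.le
      _ = (|C| + 1)⁻¹ := by
        rw [← Real.rpow_mul (by positivity), inv_mul_cancel₀ hα.ne', Real.rpow_one]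
  have hH3 : 0 ≤ H ^ α := Real.rpow_nonneg hH0 α
  have hN : (1 : ℝ) ≤ N := by exact_mod_cast h1
  calc C * H ^ α ≤ |C| * H ^ α := mul_le_mul_of_nonneg_right (le_abs_self C) hH3
    _ ≤ |C| * (|C| + 1)⁻¹ := mul_le_mul_of_nonneg_left hH2 (abs_nonneg C)
    _ < 1 := by
      rw [← div_eq_mul_inv, div_lt_one hpos]
      linarith
    _ ≤ N := hN

end Pool.Agent.Results.MP_a2f83a_an.SmallNodalSets
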